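import Pool.Agent.Q44.WK.Stm

set_option autoImplicit false

namespace Pool.Agent.Q31.WK.CL

open Pool.Agent.Q44.WK

/-- `p` and `q` are integral and at distance at most `ε` -/
structure Cl {L : Type} [NormedField L] (ε : ℝ) (p q : L) : Prop where
  l : ‖p‖ ≤ 1
  r : ‖q‖ ≤ 1
  d : ‖p - q‖ ≤ ε

section

variable {L : Type} [NormedField L] [IsUltrametricDist L] {ε : ℝ}

omit [IsUltrametricDist L] in
lemma Cl.const (hε : 0 ≤ ε) {p : L} (hp : ‖p‖ ≤ 1) : Cl ε p p := ⟨hp, hp, by simpa using hε⟩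

lemma Cl.add {p q p' q' : L} (h : Cl ε p q) (h' : Cl ε p' q') : Cl ε (p + p') (q + q') where
  l := (IsUltrametricDist.norm_add_le_max p p').trans (max_le h.l h'.l)
  r := (IsUltrametricDist.norm_add_le_max q q').trans (max_le h.r h'.r)
  d := by
    have e : p + p' - (q + q') = (p - q) + (p' - q') := by ring
    rw [e]
    exact (IsUltrametricDist.norm_add_le_max _ _).trans (max_le h.d h'.d)

omit [IsUltrametricDist L] in
lemma Cl.neg {p q : L} (h : Cl ε p q) : Cl ε (-p) (-q) where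
  l := by rw [norm_neg]; exact h.l
  r := by rw [norm_neg]; exact h.r
  d := by
    have e : -p - -q = -(p - q) := by ring
    rw [e, norm_neg]
    exact h.d

lemma Cl.sub {p q p' q' : L} (h : Cl ε p q) (h' : Cl ε p' q') : Cl ε (p - p') (q - q') := by
  rw [sub_eq_add_neg, sub_eq_add_neg]
  exact h.add h'.neg

lemma Cl.mul {p q p' q' : L} (h : Cl ε p q) (h' : Cl ε p' q') : Cl ε (p * p') (q * q') where
  l := by
    rw [norm_mul]
    exact mul_le_one₀ h.l (norm_nonneg _) h'.l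
  r := by
    rw [norm_mul]
    exact mul_le_one₀ h.r (norm_nonneg _) h'.r
  d := by
    have e : p * p' - q * q' = p * (p' - q') + (p - q) * q' := by ring
    rw [e]
    refine (IsUltrametricDist.norm_add_le_max _ _).trans (max_le ?_ ?_)
    · rw [norm_mul]
      calc ‖p‖ * ‖p' - q'‖ ≤ 1 * ‖p' - q'‖ := mul_le_mul_of_nonneg_right h.l (norm_nonneg _)
        _ = ‖p' - q'‖ := one_mul _
        _ ≤ ε := h'.d
    · rw [norm_mul]
      calc ‖p - q‖ * ‖q'‖ ≤ ‖p - q‖ * 1 := mul_le_mul_of_nonneg_left h'.r (norm_nonneg _)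
        _ = ‖p - q‖ := mul_one _
        _ ≤ ε := h.d

omit [IsUltrametricDist L] in
lemma Cl.zero (hε : 0 ≤ ε) : Cl ε (0 : L) 0 := Cl.const hε (by simp)

lemma Cl.sum {ι : Type} (s : Finset ι) (f g : ι → L) (hε : 0 ≤ ε) (h : ∀ i ∈ s, Cl ε (f i) (g i)) :
    Cl ε (∑ i ∈ s, f i) (∑ i ∈ s, g i) := by
  classical
  induction s using Finset.induction_on with
  | empty => simpa using Cl.zero hε
  | insert a s ha ih =>
    rw [Finset.sum_insert ha, Finset.sum_insert ha]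
    exact (h a (Finset.mem_insert_self a s)).add
      (ih fun i hi => h i (Finset.mem_insert_of_mem hi))

lemma Cl.cr {v v' : V L} (hε : 0 ≤ ε) (h : ∀ i, Cl ε (v i) (v' i)) (a k : Fin 3) :
    Cl ε (Dat.cr v a k) (Dat.cr v' a k) := by
  fin_cases a <;> fin_cases k
  · simpa [Dat.cr] using Cl.zero hε
  · simpa [Dat.cr] using h 2
  · simpa [Dat.cr] using (h 1).neg
  · simpa [Dat.cr] using (h 2).neg
  · simpa [Dat.cr] using Cl.zero hε
  · simpa [Dat.cr] using h 0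
  · simpa [Dat.cr] using h 1
  · simpa [Dat.cr] using (h 0).neg
  · simpa [Dat.cr] using Cl.zero hε

lemma Cl.G {D : Dat L} (hD : Good D) (hε : 0 ≤ ε) {x x' : V L} (h : ∀ i, Cl ε (x i) (x' i)) (a b : Fin 3) :
    Cl ε (D.G x a b) (D.G x' a b) := by
  obtain ⟨h1, h2, -, -⟩ := hD
  have hlam : ∀ j, Cl ε (D.lam x j) (D.lam x' j) := fun j =>
    Cl.sum _ _ _ hε fun i _ => (Cl.const hε (h1 i j)).mul (h i)
  have hsym : ∀ k l, Cl ε (D.sym x k l) (D.sym x' k l) := fun k l =>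
    Cl.sum _ _ _ hε fun i _ => Cl.sum _ _ _ hε fun j _ =>
      (((Cl.const hε (h2 i j k l)).add (Cl.const hε (h2 i j l k))).mul (h i)).mul (h j)
  exact Cl.sum _ _ _ hε fun k _ => Cl.sum _ _ _ hε fun l _ =>
    ((Cl.cr hε hlam a k).mul (hsym k l)).mul (Cl.cr hε hlam b l)

end

section

variable {L : Type} [NormedField L]

lemma lam_smul (D : Dat L) (s : L) (x : V L) (j : Fin 3) : D.lam (s • x) j = s * D.lam x j := by
  unfold Dat.lam
  rw [Finset.mul_sum]
  refine Finset.sum_congr rfl fun i _ => ?_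
  simp only [Pi.smul_apply, smul_eq_mul]
  ring

lemma sym_smul (D : Dat L) (s : L) (x : V L) (k l : Fin 3) : D.sym (s • x) k l = s ^ 2 * D.sym x k l := by
  unfold Dat.sym
  rw [Finset.mul_sum]
  refine Finset.sum_congr rfl fun i _ => ?_
  rw [Finset.mul_sum]
  refine Finset.sum_congr rfl fun j _ => ?_
  simp only [Pi.smul_apply, smul_eq_mul]
  ring

lemma cr_smul (s : L) {v v' : V L} (h : ∀ i, v' i = s * v i) (a k : Fin 3) :
    Dat.cr v' a k = s * Dat.cr v a k := by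
  fin_cases a <;> fin_cases k <;> simp [Dat.cr, h]

lemma G_smul (D : Dat L) (s : L) (x : V L) (a b : Fin 3) : D.G (s • x) a b = s ^ 4 * D.G x a b := by
  unfold Dat.G
  rw [Finset.mul_sum]
  refine Finset.sum_congr rfl fun k _ => ?_
  rw [Finset.mul_sum]
  refine Finset.sum_congr rfl fun l _ => ?_
  rw [cr_smul s (lam_smul D s x) a k, cr_smul s (lam_smul D s x) b l, sym_smul]
  ring

lemma adj_smul {D : Dat L} {x y w : V L} (h : D.Adj x y w) {s t : L} (hs : s ≠ 0) (ht : t ≠ 0) :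
    D.Adj (s • x) (t • y) w := by
  obtain ⟨c, hc, h⟩ := h
  refine ⟨t * c / s ^ 4, div_ne_zero (mul_ne_zero ht hc) (pow_ne_zero _ hs), fun a b => ?_⟩
  rw [G_smul]
  simp only [Pi.smul_apply, smul_eq_mul]
  have h1 := h a b
  field_simp
  linear_combination h1

/-- the first index with a coordinate of norm one -/
lemma exists_first {y : V L} (hy : ‖y‖ = 1) : ∃ i : Fin 3, ‖y i‖ = 1 ∧ ∀ j, j < i → ‖y j‖ < 1 := by
  classical
  have hle : ∀ j, ‖y j‖ ≤ 1 := fun j => hy ▸ norm_le_pi_norm y j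
  have hex : ∃ i, ‖y i‖ = 1 := by
    by_contra hcon
    push Not at hcon
    have hlt : ∀ j, ‖y j‖ < 1 := fun j => lt_of_le_of_ne (hle j) (hcon j)
    have := (pi_norm_lt_iff one_pos).mpr hlt
    rw [hy] at this
    exact lt_irrefl _ this
  obtain ⟨i, hi⟩ := hex
  have hne : (Finset.univ.filter fun i => ‖y i‖ = 1).Nonempty := ⟨i, by simp [hi]⟩
  refine ⟨(Finset.univ.filter fun i => ‖y i‖ = 1).min' hne, ?_, ?_⟩
  · have := Finset.min'_mem _ hne
    simpa using this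
  · intro j hj
    refine lt_of_le_of_ne (hle j) fun h => ?_
    have := Finset.min'_le (Finset.univ.filter fun i => ‖y i‖ = 1) j (by simp [h])
    exact absurd hj (not_lt.mpr this)

variable [IsUltrametricDist L]

/-- Gauss lemma -/
lemma gauss {y w : V L} (h2 : ‖(2 : L)‖ = 1) (hy : ‖y‖ = 1) (hw : ‖w‖ = 1) :
    ∃ a b, ‖y a * w b + y b * w a‖ = 1 := by
  obtain ⟨i, hi, hi'⟩ := exists_first hy
  obtain ⟨j, hj, hj'⟩ := exists_first hw
  refine ⟨i, j, ?_⟩
  have hly : ∀ j, ‖y j‖ ≤ 1 := fun j => hy ▸ norm_le_pi_norm y j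
  have hlw : ∀ j, ‖w j‖ ≤ 1 := fun j => hw ▸ norm_le_pi_norm w j
  have h1 : ‖y i * w j‖ = 1 := by rw [norm_mul, hi, hj, one_mul]
  rcases lt_trichotomy i j with h | h | h
  · have h3 : ‖y j * w i‖ < 1 := by
      rw [norm_mul]
      exact mul_lt_one_of_nonneg_of_lt_one_right (hly j) (norm_nonneg _) (hj' i h)
    rw [IsUltrametricDist.norm_add_eq_max_of_norm_ne_norm (by rw [h1]; exact h3.ne'), h1]
    exact max_eq_left h3.le
  · subst h
    have e : y i * w i + y i * w i = 2 * (y i * w i) := by ring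
    rw [e, norm_mul, h2, h1, one_mul]
  · have h3 : ‖y j * w i‖ < 1 := by
      rw [norm_mul]
      exact mul_lt_one_of_nonneg_of_lt_one_left (norm_nonneg _) (hi' j h) (hlw i)
    rw [IsUltrametricDist.norm_add_eq_max_of_norm_ne_norm (by rw [h1]; exact h3.ne'), h1]
    exact max_eq_left h3.le

lemma norm_c {D : Dat L} (hD : Good D) {x y w : V L} (hx : ‖x‖ = 1) (hy : ‖y‖ = 1) (hw : ‖w‖ = 1)
    {c : L} (h : ∀ a b, y a * w b + y b * w a = c * D.G x a b) : ‖c‖ = 1 := by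
  have hlx : ∀ j, ‖x j‖ ≤ 1 := fun j => hx ▸ norm_le_pi_norm x j
  have hly : ∀ j, ‖y j‖ ≤ 1 := fun j => hy ▸ norm_le_pi_norm y j
  have hlw : ∀ j, ‖w j‖ ≤ 1 := fun j => hw ▸ norm_le_pi_norm w j
  have hG : ∀ a b, ‖D.G x a b‖ ≤ 1 := fun a b =>
    (Cl.G (ε := 1) hD zero_le_one (fun i => Cl.const zero_le_one (hlx i)) a b).l
  apply le_antisymm
  · obtain ⟨a, b, hab⟩ := (hD.2.2.2 x hx).1
    have h1 := h a b
    have h2 : ‖y a * w b + y b * w a‖ ≤ 1 :=
      (((Cl.const (ε := 1) zero_le_one (hly a)).mul (Cl.const zero_le_one (hlw b))).add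
        ((Cl.const zero_le_one (hly b)).mul (Cl.const zero_le_one (hlw a)))).l
    rw [h1, norm_mul, hab, mul_one] at h2
    exact h2
  · obtain ⟨a, b, hab⟩ := gauss hD.2.2.1 hy hw
    rw [h a b, norm_mul] at hab
    calc (1:ℝ) = ‖c‖ * ‖D.G x a b‖ := hab.symm
      _ ≤ ‖c‖ * 1 := mul_le_mul_of_nonneg_left (hG a b) (norm_nonneg _)
      _ = ‖c‖ := mul_one _

omit [IsUltrametricDist L] in
lemma formula {G : Fin 3 → Fin 3 → L} {y w : V L} {c : L} (h2 : (2 : L) ≠ 0) {i : Fin 3} (hi : y i ≠ 0)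
    (h : ∀ a b, y a * w b + y b * w a = c * G a b) (b : Fin 3) :
    w b = c / (2 * y i ^ 2) * (2 * y i * G i b - y b * G i i) := by
  have h1 := h i b
  have h3 := h i i
  field_simp
  linear_combination 2 * y i * h1 - y b * h3

theorem near_of_close {ε : ℝ} {D : Dat L} (hD : Good D) (hε : 0 < ε) (hε1 : ε < 1) {x x' y y' w w' : V L}
    (hx : ‖x‖ = 1) (hx' : ‖x'‖ = 1) (hy : ‖y‖ = 1) (hy' : ‖y'‖ = 1) (hw : ‖w‖ = 1) (hw' : ‖w'‖ = 1)
    (h : D.Adj x y w) (h' : D.Adj x' y' w') (hxx : ‖x - x'‖ ≤ ε) (hyy : ‖y - y'‖ ≤ ε) :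
    Near ε w w' := by
  obtain ⟨c, hc, h⟩ := h
  obtain ⟨c', hc', h'⟩ := h'
  have h2 : ‖(2 : L)‖ = 1 := hD.2.2.1
  have h20 : (2 : L) ≠ 0 := by
    intro e
    rw [e, norm_zero] at h2
    exact zero_ne_one h2
  have nc := norm_c hD hx hy hw h
  have nc' := norm_c hD hx' hy' hw' h'
  have hlx : ∀ j, ‖x j‖ ≤ 1 := fun j => hx ▸ norm_le_pi_norm x j
  have hly : ∀ j, ‖y j‖ ≤ 1 := fun j => hy ▸ norm_le_pi_norm y j
  have hlx' : ∀ j, ‖x' j‖ ≤ 1 := fun j => hx' ▸ norm_le_pi_norm x' j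
  have hly' : ∀ j, ‖y' j‖ ≤ 1 := fun j => hy' ▸ norm_le_pi_norm y' j
  have cx : ∀ j, Cl ε (x j) (x' j) := fun j =>
    ⟨hlx j, hlx' j, (norm_le_pi_norm (x - x') j).trans hxx⟩
  have cy : ∀ j, Cl ε (y j) (y' j) := fun j =>
    ⟨hly j, hly' j, (norm_le_pi_norm (y - y') j).trans hyy⟩
  obtain ⟨i, hi, -⟩ := exists_first hy
  have hi' : ‖y' i‖ = 1 := by
    apply le_antisymm (hly' i)
    have e1 := IsUltrametricDist.norm_add_le_max (y i - y' i) (y' i)
    rw [sub_add_cancel, hi] at e1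
    rcases le_max_iff.mp e1 with e2 | e2
    · have := (cy i).d
      linarith
    · exact e2
  have hi0 : y i ≠ 0 := by
    intro e
    rw [e, norm_zero] at hi
    exact zero_ne_one hi
  have hi0' : y' i ≠ 0 := by
    intro e
    rw [e, norm_zero] at hi'
    exact zero_ne_one hi'
  have cG := Cl.G hD hε.le cx
  have cv : ∀ b, Cl ε (2 * y i * D.G x i b - y b * D.G x i i) (2 * y' i * D.G x' i b - y' b * D.G x' i i) :=
    fun b => (((Cl.const hε.le h2.le).mul (cy i)).mul (cG i b)).sub ((cy b).mul (cG i i))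
  have f1 := formula h20 hi0 h
  have f2 := formula h20 hi0' h'
  set κ : L := c / (2 * y i ^ 2) with hκ
  set κ' : L := c' / (2 * y' i ^ 2) with hκ'
  have nκ : ‖κ‖ = 1 := by
    rw [hκ, norm_div, norm_mul, norm_pow, nc, h2, hi]
    norm_num
  have nκ' : ‖κ'‖ = 1 := by
    rw [hκ', norm_div, norm_mul, norm_pow, nc', h2, hi']
    norm_num
  have hκ0 : κ' ≠ 0 := by
    intro e
    rw [e, norm_zero] at nκ'
    exact zero_ne_one nκ'
  refine ⟨κ / κ', by rw [norm_div, nκ, nκ', div_one], ?_⟩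
  rw [pi_norm_le_iff_of_nonneg hε.le]
  intro b
  have e : (w - (κ / κ') • w') b =
      κ * ((2 * y i * D.G x i b - y b * D.G x i i) - (2 * y' i * D.G x' i b - y' b * D.G x' i i)) := by
    simp only [Pi.sub_apply, Pi.smul_apply, smul_eq_mul]
    rw [f1 b, f2 b]
    field_simp
  rw [e, norm_mul, nκ, one_mul]
  exact (cv b).d

end

theorem main : S_close := by
  intro L _ _ D hD ε hε hε1 x x' y y' w w' hx hx' hy hy' hw hw' h h' hxx hyy
  obtain ⟨s, hs, hxx⟩ := hxx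
  obtain ⟨t, ht, hyy⟩ := hyy
  have hs0 : s ≠ 0 := by
    intro e
    rw [e, norm_zero] at hs
    exact zero_ne_one hs
  have ht0 : t ≠ 0 := by
    intro e
    rw [e, norm_zero] at ht
    exact zero_ne_one ht
  exact near_of_close hD hε hε1 hx (by rw [norm_smul, hs, hx', one_mul]) hy
    (by rw [norm_smul, ht, hy', one_mul]) hw hw' h (adj_smul h' hs0 ht0) hxx hyy

end Pool.Agent.Q31.WK.CL
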